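import Pool.Agent.KDD.Stmts

/-!
# KDD squad, row QDI: base points of the doubling, double root at `0`
-/

set_option autoImplicit false

namespace Pool.Agent.KDD.H25

open Polynomial NumberField H58Q Pool.Agent.SZT Pool.Agent.SZT.B Pool.Agent.KDT Pool.Agent.KDS

variable {k : Type} [Field k]

/-- identity (2) -/
theorem qdi_id2 (f : k[X]) (u : Fin 4 → k) (h0 : f.coeff 0 = 0) (h1 : f.coeff 1 = 0) (b : k)
    (hb : b ^ 3 + f.coeff 4 * b ^ 2 + f.coeff 3 * b + f.coeff 2 = 0) :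
    ((u 3 - b * u 2) ^ 2 - (3 * b ^ 2 + 2 * f.coeff 4 * b + f.coeff 3) * u 2 ^ 2) ^ 2 =
      dup3 f u - b * dup2 f u := by
  have h2 : f.coeff 2 = -(b ^ 3 + f.coeff 4 * b ^ 2 + f.coeff 3 * b) := by
    linear_combination hb
  unfold dup3 dup2
  rw [h0, h1, h2]
  ring

/-- identity (1) -/
theorem qdi_id1 (f : k[X]) (u : Fin 4 → k) (h0 : f.coeff 0 = 0) (h1 : f.coeff 1 = 0) :
    (u 3 ^ 2 + 2 * f.coeff 2 * u 0 * u 3 - f.coeff 3 * u 2 ^ 2 - 2 * f.coeff 2 * u 1 * u 2) ^ 2 =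
      dup3 f u + f.coeff 2 * dup0 f u := by
  unfold dup3 dup0
  rw [h0, h1]
  ring

/-- the coefficients of `X ^ 2 (X - b) (X - c) (X - d)` -/
theorem qdi_coeff (b c d : k) :
    ((X : k[X]) ^ 2 * ((X - C b) * (X - C c) * (X - C d))).coeff 2 = -(b * c * d) ∧
    ((X : k[X]) ^ 2 * ((X - C b) * (X - C c) * (X - C d))).coeff 3 = b * c + b * d + c * d ∧
    ((X : k[X]) ^ 2 * ((X - C b) * (X - C c) * (X - C d))).coeff 4 = -(b + c + d) := by
  have he : (X : k[X]) ^ 2 * ((X - C b) * (X - C c) * (X - C d)) =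
      X ^ 5 + C (-(b + c + d)) * X ^ 4 + C (b * c + b * d + c * d) * X ^ 3
        + C (-(b * c * d)) * X ^ 2 := by
    simp only [map_neg, map_add, map_mul]
    ring
  rw [he]
  refine ⟨?_, ?_, ?_⟩ <;> simp only [coeff_add, coeff_C_mul, coeff_X_pow] <;> norm_num

/-- the case of a double root `b` of `h` -/
theorem qdi_dbl (f : k[X]) (u : Fin 4 → k) (b d : k) (h2 : (2 : k) ≠ 0) (hb : b ≠ 0) (hd : d ≠ 0)
    (f0 : f.coeff 0 = 0) (f1 : f.coeff 1 = 0) (f2 : f.coeff 2 = -(b * b * d))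
    (f3 : f.coeff 3 = b * b + b * d + b * d) (f4 : f.coeff 4 = -(b + b + d))
    (hu : u 2 ≠ 0) (hdup : ∀ l, dup f u l = 0) :
    uni (shc f b) u 2 = 0 ∧ uni (shc f b) u 3 = 0 := by
  have d0 : dup0 f u = 0 := by simpa [dup] using hdup 0
  have d2 : dup2 f u = 0 := by simpa [dup] using hdup 2
  have d3 : dup3 f u = 0 := by simpa [dup] using hdup 3
  have e2 := qdi_id2 f u f0 f1 b (by rw [f2, f3, f4]; ring)
  have e1 := qdi_id1 f u f0 f1
  rw [d2, d3, mul_zero, sub_zero] at e2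
  rw [d0, d3, mul_zero, add_zero] at e1
  have e2' := pow_eq_zero_iff (two_ne_zero) |>.mp e2
  have e3 : (u 3 - b * u 2) ^ 2 = 0 := by
    rw [f3, f4] at e2'
    linear_combination e2'
  have e4 : u 3 = b * u 2 := sub_eq_zero.mp (pow_eq_zero_iff (two_ne_zero) |>.mp e3)
  have e1' := pow_eq_zero_iff (two_ne_zero) |>.mp e1
  have hT : u 2 - b * u 1 + b ^ 2 * u 0 = 0 := by
    have h5 : (2 * b * d * u 2) * (u 2 - b * u 1 + b ^ 2 * u 0) = 0 := by
      rw [f2, f3, e4] at e1'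
      linear_combination -e1'
    rcases mul_eq_zero.mp h5 with h6 | h6
    · exact absurd h6 (mul_ne_zero (mul_ne_zero (mul_ne_zero h2 hb) hd) hu)
    · exact h6
  have u2 : uni (shc f b) u 2 = u 2 + -b * u 1 + b ^ 2 * u 0 := by
    simp [uni, shc]
  have u3 : uni (shc f b) u 3 = u 3 + -2 * b * u 2 + b ^ 2 * u 1
      + -(4 * b ^ 3 + 2 * f.coeff 4 * b ^ 2 + f.coeff 3 * b) * u 0 := by
    simp [uni, shc]
  constructor
  · rw [u2]; linear_combination hT
  · rw [u3, e4, f3, f4]; linear_combination -b * hT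

/-- **Row QDI.** -/
theorem qdi : QdiStatement := by
  classical
  intro k _ f u h2 hm hdeg f0 f1 hs hcube hdup
  -- factorisation
  have hX : (X : k[X]) ^ 2 ∣ f := by
    rw [X_pow_dvd_iff]
    intro d hd
    interval_cases d
    · exact f0
    · exact f1
  obtain ⟨h, hh⟩ := hX
  have hf0 : f ≠ 0 := hm.ne_zero
  have hh0 : h ≠ 0 := by
    rintro rfl
    exact hf0 (by rw [hh, mul_zero])
  have hhm : h.Monic := by
    have : ((X : k[X]) ^ 2 * h).Monic := hh ▸ hm
    exact (monic_X_pow 2).of_mul_monic_left this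
  have hhd : h.natDegree = 3 := by
    have h3 : f.natDegree = 2 + h.natDegree := by
      rw [hh, (monic_X_pow 2).natDegree_mul hhm, natDegree_X_pow]
    omega
  have hhs : h.Splits := hs.of_dvd hf0 ⟨X ^ 2, by rw [hh, mul_comm]⟩
  have hcard : Multiset.card h.roots = 3 := by rw [← hhd]; exact hhs.natDegree_eq_card_roots.symm
  obtain ⟨b, c, d, hr⟩ := Multiset.card_eq_three.mp hcard
  have hprod : h = (X - C b) * (X - C c) * (X - C d) := by
    have h4 := hhs.eq_prod_roots_of_monic hhm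
    rw [hr] at h4
    rw [h4]
    simp [mul_assoc]
  have hf : f = X ^ 2 * ((X - C b) * (X - C c) * (X - C d)) := by rw [hh, hprod]
  obtain ⟨c2, c3, c4⟩ := qdi_coeff b c d
  rw [← hf] at c2 c3 c4
  have hb0 : b ≠ 0 := by
    rintro rfl
    apply hcube 0
    exact ⟨(X - C c) * (X - C d), by rw [hf]; simp; ring⟩
  have hc0 : c ≠ 0 := by
    rintro rfl
    apply hcube 0
    exact ⟨(X - C b) * (X - C d), by rw [hf]; simp; ring⟩
  have hd0 : d ≠ 0 := by
    rintro rfl
    apply hcube 0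
    exact ⟨(X - C b) * (X - C c), by rw [hf]; simp; ring⟩
  have d2 : dup2 f u = 0 := by simpa [dup] using hdup 2
  have d3 : dup3 f u = 0 := by simpa [dup] using hdup 3
  have key : ∀ r : k, r ^ 3 + f.coeff 4 * r ^ 2 + f.coeff 3 * r + f.coeff 2 = 0 →
      (u 3 - r * u 2) ^ 2 = (3 * r ^ 2 + 2 * f.coeff 4 * r + f.coeff 3) * u 2 ^ 2 := by
    intro r hr
    have e2 := qdi_id2 f u f0 f1 r hr
    rw [d2, d3, mul_zero, sub_zero] at e2
    exact sub_eq_zero.mp (pow_eq_zero_iff (two_ne_zero) |>.mp e2)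
  by_cases hu : u 2 = 0
  · left
    refine ⟨hu, ?_⟩
    have e := key b (by rw [c2, c3, c4]; ring)
    rw [hu] at e
    have e' : u 3 ^ 2 = 0 := by linear_combination e
    exact pow_eq_zero_iff (two_ne_zero) |>.mp e'
  · right
    have kb := key b (by rw [c2, c3, c4]; ring)
    have kc := key c (by rw [c2, c3, c4]; ring)
    have kd := key d (by rw [c2, c3, c4]; ring)
    rw [c3, c4] at kb kc kd
    by_cases hbc : b = c
    · subst hbc
      refine ⟨b, hb0, ⟨X ^ 2 * (X - C d), by rw [hf]; ring⟩, ?_⟩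
      exact qdi_dbl f u b d h2 hb0 hd0 f0 f1 c2 c3 c4 hu hdup
    by_cases hbd : b = d
    · subst hbd
      refine ⟨b, hb0, ⟨X ^ 2 * (X - C c), by rw [hf]; ring⟩, ?_⟩
      exact qdi_dbl f u b c h2 hb0 hc0 f0 f1 (by rw [c2]; ring) (by rw [c3]; ring)
        (by rw [c4]; ring) hu hdup
    by_cases hcd : c = d
    · subst hcd
      refine ⟨c, hc0, ⟨X ^ 2 * (X - C b), by rw [hf]; ring⟩, ?_⟩
      exact qdi_dbl f u c b h2 hc0 hb0 f0 f1 (by rw [c2]; ring) (by rw [c3]; ring)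
        (by rw [c4]; ring) hu hdup
    exfalso
    have t1 : u 3 = d * u 2 := by
      have h5 : ((c - b) * u 2 * 2) * (u 3 - d * u 2) = 0 := by
        linear_combination kb - kc
      rcases mul_eq_zero.mp h5 with h6 | h6
      · exact absurd h6 (mul_ne_zero (mul_ne_zero (sub_ne_zero.mpr (Ne.symm hbc)) hu) h2)
      · exact sub_eq_zero.mp h6
    have t2 : u 3 = c * u 2 := by
      have h5 : ((d - b) * u 2 * 2) * (u 3 - c * u 2) = 0 := by
        linear_combination kb - kd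
      rcases mul_eq_zero.mp h5 with h6 | h6
      · exact absurd h6 (mul_ne_zero (mul_ne_zero (sub_ne_zero.mpr (Ne.symm hbd)) hu) h2)
      · exact sub_eq_zero.mp h6
    have h7 : (c - d) * u 2 = 0 := by linear_combination t1 - t2
    rcases mul_eq_zero.mp h7 with h8 | h8
    · exact hcd (sub_eq_zero.mp h8)
    · exact hu h8

end Pool.Agent.KDD.H25
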